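import Pool.Agent.helper69.GR2B.Spec

/-! Module gb:BOK (helper11): a place where `k` is almost linear with a large slope. -/

set_option autoImplicit false

open Complex Metric Set Filter Topology MeasureTheory
open MPS (om)
open PPS (pre TT fd)
open XPS (Df er dens tau)
open Pool.Agent.helper16.Multibrot

noncomputable section

namespace GR

theorem BOK_max (k : ℂ → ℂ) (hk : DifferentiableOn ℂ k (ball 0 1)) (r : ℝ) (h0 : 0 < r) (h1 : r < 1) :
    ∃ w : ℂ, ‖w‖ = r ∧ ∀ z ∈ closedBall (0 : ℂ) r, (k z).re ≤ (k w).re := by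
  have hsub : closedBall (0 : ℂ) r ⊆ ball 0 1 := closedBall_subset_ball h1
  have hd : DiffContOnCl ℂ (fun z => Complex.exp (k z)) (ball (0 : ℂ) r) := by
    apply DifferentiableOn.diffContOnCl
    rw [closure_ball (0 : ℂ) h0.ne']
    exact (hk.mono hsub).cexp
  obtain ⟨w, hw, hmax⟩ :=
    Complex.exists_mem_frontier_isMaxOn_norm isBounded_ball (nonempty_ball.2 h0) hd
  rw [frontier_ball (0 : ℂ) h0.ne'] at hw
  rw [closure_ball (0 : ℂ) h0.ne'] at hmax
  refine ⟨w, mem_sphere_zero_iff_norm.1 hw, fun z hz => ?_⟩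
  have h2 : ‖Complex.exp (k z)‖ ≤ ‖Complex.exp (k w)‖ := hmax hz
  rw [Complex.norm_exp, Complex.norm_exp] at h2
  exact Real.exp_le_exp.1 h2

theorem BOK_core (k : ℂ → ℂ) (w : ℂ) (g d : ℝ) (hd : 0 < d) (hd1 : d ≤ 1) (hg : 0 < g)
    (hk : DifferentiableOn ℂ k (ball w d)) (hre : ∀ z ∈ ball w d, (k z).re ≤ 2 * g)
    (hw : (k w).re = g) (hD : g / 2 ≤ ‖deriv k w‖) (hs : 2 * Real.pi / g ≤ d ^ 2 / 32768) :
    ∃ τ : ℂ, ‖τ‖ ≤ d ^ 2 / 32768 ∧ ∀ z ∈ ball w (d ^ 2 / 32768), 0 ≤ (k z).re ∧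
      ‖Complex.exp (k (z + τ) - k z) + 1‖ ≤ 1 / 20 := by
  have hπ := Real.pi_pos
  have hπ2 : Real.pi < 3.15 := Real.pi_lt_d2
  have hsig : 0 < d ^ 2 / 32768 := by positivity
  have hd2 : d ^ 2 ≤ d := by nlinarith
  have hDpos : 0 < ‖deriv k w‖ := lt_of_lt_of_le (by positivity) hD
  have hD0 : deriv k w ≠ 0 := norm_pos_iff.1 hDpos
  -- step 1
  have h1 : ∀ z ∈ ball w d, ‖k z - k w‖ ≤ 2 * g * ‖z - w‖ / (d - ‖z - w‖) := by
    intro z hz
    have hf : DifferentiableOn ℂ (fun ζ => k (w + ζ) - k w) (ball 0 d) := by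
      refine (hk.comp ((differentiable_id.const_add w).differentiableOn) ?_).sub_const _
      intro ζ hζ
      rw [mem_ball, dist_eq_norm]
      rw [mem_ball_zero_iff] at hζ
      simpa using hζ
    have hm : Set.MapsTo (fun ζ => k (w + ζ) - k w) (ball 0 d) {z | z.re ≤ g} := by
      intro ζ hζ
      have h2 : w + ζ ∈ ball w d := by
        rw [mem_ball, dist_eq_norm]
        rw [mem_ball_zero_iff] at hζ
        simpa using hζ
      have h3 := hre _ h2
      show (k (w + ζ) - k w).re ≤ g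
      rw [Complex.sub_re, hw]
      linarith
    have hz' : z - w ∈ ball (0 : ℂ) d := by
      rw [mem_ball_zero_iff, ← dist_eq_norm]
      exact hz
    have h4 := Complex.borelCaratheodory_zero hg hf hm hd hz' (by simp)
    simpa using h4
  -- step 2
  have h2 : ∀ z ∈ ball w (d / 2), ‖k z - k w‖ ≤ 2 * g := by
    intro z hz
    rw [mem_ball, dist_eq_norm] at hz
    have hz1 : z ∈ ball w d := by
      rw [mem_ball, dist_eq_norm]
      linarith
    refine (h1 z hz1).trans ?_
    rw [div_le_iff₀ (by linarith)]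
    have h3 : ‖z - w‖ ≤ d - ‖z - w‖ := by linarith
    nlinarith
  -- step 3
  have h3 : ∀ z ∈ ball w (d / 4), ‖deriv k z‖ ≤ 8 * g / d := by
    intro z hz
    rw [mem_ball, dist_eq_norm] at hz
    have hsub : closedBall z (d / 4) ⊆ ball w (d / 2) := by
      intro x hx
      rw [mem_closedBall, dist_eq_norm] at hx
      rw [mem_ball, dist_eq_norm]
      calc ‖x - w‖ = ‖(x - z) + (z - w)‖ := by ring_nf
        _ ≤ ‖x - z‖ + ‖z - w‖ := norm_add_le _ _
        _ < d / 2 := by linarith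
    have hsub2 : ball w (d / 2) ⊆ ball w d := ball_subset_ball (by linarith)
    have hdc : DiffContOnCl ℂ (fun ζ => k ζ - k w) (ball z (d / 4)) := by
      apply DifferentiableOn.diffContOnCl
      rw [closure_ball z (by positivity : d / 4 ≠ 0)]
      exact (hk.mono (hsub.trans hsub2)).sub_const _
    have h4 := Complex.norm_deriv_le_of_forall_mem_sphere_norm_le (by positivity : 0 < d / 4) hdc
      (C := 2 * g) (fun x hx => h2 x (hsub (sphere_subset_closedBall hx)))
    rw [deriv_sub_const] at h4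
    refine h4.trans (le_of_eq ?_)
    field_simp
    ring
  -- step 5
  have h5 : ∀ z ∈ ball w (d ^ 2 / 16384), ‖deriv k z - deriv k w‖ ≤ g / 256 := by
    intro z hz
    have hz1 : z ∈ ball w (d / 4) := by
      rw [mem_ball] at hz ⊢
      linarith
    have hdd : DifferentiableOn ℂ (deriv k) (ball w (d / 4)) :=
      (hk.deriv isOpen_ball).mono (ball_subset_ball (by linarith))
    have hwm : w ∈ ball w (d / 4) := mem_ball_self (by positivity)
    have hm : MapsTo (deriv k) (ball w (d / 4)) (closedBall (deriv k w) (16 * g / d)) := by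
      intro x hx
      rw [mem_closedBall, dist_eq_norm]
      calc ‖deriv k x - deriv k w‖ ≤ ‖deriv k x‖ + ‖deriv k w‖ := norm_sub_le _ _
        _ ≤ 8 * g / d + 8 * g / d := add_le_add (h3 x hx) (h3 w hwm)
        _ = 16 * g / d := by ring
    have h6 := Complex.dist_le_div_mul_dist_of_mapsTo_ball hdd hm hz1
    rw [dist_eq_norm] at h6
    refine h6.trans ?_
    have h7 : dist z w ≤ d ^ 2 / 16384 := (mem_ball.1 hz).le
    calc 16 * g / d / (d / 4) * dist z w ≤ 16 * g / d / (d / 4) * (d ^ 2 / 16384) :=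
          mul_le_mul_of_nonneg_left h7 (by positivity)
      _ = g / 256 := by
          field_simp
          ring
  have hDt : deriv k w * (Complex.I * (Real.pi : ℂ) / deriv k w) = Complex.I * (Real.pi : ℂ) := by
    field_simp
  have hτn : ‖Complex.I * (Real.pi : ℂ) / deriv k w‖ ≤ 2 * Real.pi / g := by
    rw [norm_div, norm_mul, Complex.norm_I, one_mul, Complex.norm_real, Real.norm_eq_abs,
      abs_of_pos hπ, div_le_div_iff₀ hDpos hg]
    nlinarith
  refine ⟨Complex.I * (Real.pi : ℂ) / deriv k w, hτn.trans hs, fun z hz => ?_⟩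
  have hzn : ‖z - w‖ < d ^ 2 / 32768 := by
    rw [mem_ball, dist_eq_norm] at hz
    exact hz
  have hz0 : z ∈ ball w (d ^ 2 / 16384) := by
    rw [mem_ball, dist_eq_norm]
    linarith
  have hzt : z + Complex.I * (Real.pi : ℂ) / deriv k w ∈ ball w (d ^ 2 / 16384) := by
    rw [mem_ball, dist_eq_norm]
    calc ‖z + Complex.I * (Real.pi : ℂ) / deriv k w - w‖
        = ‖(z - w) + Complex.I * (Real.pi : ℂ) / deriv k w‖ := by ring_nf
      _ ≤ ‖z - w‖ + ‖Complex.I * (Real.pi : ℂ) / deriv k w‖ := norm_add_le _ _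
      _ < d ^ 2 / 16384 := by linarith [hτn.trans hs]
  constructor
  · have hzd : z ∈ ball w d := by
      rw [mem_ball, dist_eq_norm]
      linarith
    have h6 := h1 z hzd
    have h7 : 2 * g * ‖z - w‖ / (d - ‖z - w‖) ≤ g := by
      rw [div_le_iff₀ (by linarith)]
      nlinarith [norm_nonneg (z - w)]
    have h8 : |(k z - k w).re| ≤ ‖k z - k w‖ := Complex.abs_re_le_norm _
    rw [Complex.sub_re, hw] at h8
    have h9 := neg_abs_le ((k z).re - g)
    linarith
  · have hmv := Convex.norm_image_sub_le_of_norm_deriv_le (𝕜 := ℂ)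
      (f := fun ζ => k ζ - deriv k w * ζ) (C := g / 256) (s := ball w (d ^ 2 / 16384))
      (x := z) (y := z + Complex.I * (Real.pi : ℂ) / deriv k w)
      (fun x hx => by
        have hxd : x ∈ ball w d := by
          rw [mem_ball] at hx ⊢
          linarith
        exact ((hk x hxd).differentiableAt (isOpen_ball.mem_nhds hxd)).sub
          ((differentiableAt_id).const_mul _))
      (fun x hx => by
        have hxd : x ∈ ball w d := by
          rw [mem_ball] at hx ⊢
          linarith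
        have hkx : DifferentiableAt ℂ k x := (hk x hxd).differentiableAt (isOpen_ball.mem_nhds hxd)
        have hder : HasDerivAt (fun ζ => k ζ - deriv k w * ζ) (deriv k x - deriv k w * 1) x :=
          hkx.hasDerivAt.sub ((hasDerivAt_id x).const_mul (deriv k w))
        rw [hder.deriv, mul_one]
        exact h5 x hx)
      (convex_ball w _) hz0 hzt
    have e1 : (k (z + Complex.I * (Real.pi : ℂ) / deriv k w) -
        deriv k w * (z + Complex.I * (Real.pi : ℂ) / deriv k w)) - (k z - deriv k w * z) =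
        k (z + Complex.I * (Real.pi : ℂ) / deriv k w) - k z - Real.pi * Complex.I := by
      rw [mul_add, hDt]
      ring
    have e2 : z + Complex.I * (Real.pi : ℂ) / deriv k w - z = Complex.I * (Real.pi : ℂ) / deriv k w := by
      ring
    beta_reduce at hmv
    rw [e1, e2] at hmv
    obtain ⟨x, hx⟩ : ∃ x, x = k (z + Complex.I * (Real.pi : ℂ) / deriv k w) - k z - Real.pi * Complex.I :=
      ⟨_, rfl⟩
    rw [← hx] at hmv
    have hxb : ‖x‖ ≤ 0.025 := by
      refine hmv.trans ?_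
      calc g / 256 * ‖Complex.I * (Real.pi : ℂ) / deriv k w‖ ≤ g / 256 * (2 * Real.pi / g) :=
            mul_le_mul_of_nonneg_left hτn (by positivity)
        _ = Real.pi / 128 := by
            field_simp
            ring
        _ ≤ 0.025 := by linarith
    have e3 : k (z + Complex.I * (Real.pi : ℂ) / deriv k w) - k z = x + Real.pi * Complex.I := by
      rw [hx]
      ring
    rw [e3, Complex.exp_add, Complex.exp_pi_mul_I]
    have e4 : Complex.exp x * -1 + 1 = -((Complex.exp x - 1 - x) + x) := by ring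
    rw [e4, norm_neg]
    have h10 := Complex.norm_exp_sub_one_sub_id_le (x := x) (by linarith)
    calc ‖(Complex.exp x - 1 - x) + x‖ ≤ ‖Complex.exp x - 1 - x‖ + ‖x‖ := norm_add_le _ _
      _ ≤ ‖x‖ ^ 2 + ‖x‖ := by linarith
      _ ≤ 1 / 20 := by nlinarith [norm_nonneg x]

theorem BOK (hG : BPG_stmt) (hH : BHP_stmt) : BOK_stmt := by
  intro k N hN hk hk0 hre hex
  have hNr : (1 : ℝ) ≤ (N : ℝ) := by exact_mod_cast hN
  have hN0 : (0 : ℝ) < (N : ℝ) := by linarith
  choose W hW using fun r : {r : ℝ // 0 < r ∧ r < 1} => BOK_max k hk r.1 r.2.1 r.2.2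
  obtain ⟨d, hd⟩ : ∃ d : ℝ, d = 1 / (5 * (N : ℝ)) := ⟨_, rfl⟩
  have hd0 : 0 < d := by
    rw [hd]
    positivity
  have hNd : (N : ℝ) * d = 1 / 5 := by
    rw [hd]
    field_simp
  have hd1 : d ≤ 1 / 5 := by nlinarith
  -- the maxima
  have hex2 : ∀ j : ℕ, ∃ w : ℂ, j ≤ N → ‖w‖ = 7 / 10 + j * d ∧
      ∀ z ∈ closedBall (0 : ℂ) (7 / 10 + j * d), (k z).re ≤ (k w).re := by
    intro j
    by_cases hj : j ≤ N
    · have hjr : (j : ℝ) ≤ (N : ℝ) := by exact_mod_cast hj
      have h1 : (j : ℝ) * d ≤ (N : ℝ) * d := mul_le_mul_of_nonneg_right hjr hd0.le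
      have h2 : 0 ≤ (j : ℝ) * d := by positivity
      obtain ⟨w, hw⟩ := BOK_max k hk (7 / 10 + j * d) (by linarith) (by linarith)
      exact ⟨w, fun _ => hw⟩
    · exact ⟨0, fun h => absurd h hj⟩
  choose w hw using hex2
  have hr : ∀ j : ℕ, j ≤ N → (7 / 10 : ℝ) + j * d ≤ 9 / 10 := by
    intro j hj
    have hjr : (j : ℝ) ≤ (N : ℝ) := by exact_mod_cast hj
    have h1 : (j : ℝ) * d ≤ (N : ℝ) * d := mul_le_mul_of_nonneg_right hjr hd0.le
    linarith
  have hjd : ∀ j : ℕ, 0 ≤ (j : ℝ) * d := fun j => by positivity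
  have hg0 : 6000000 * (N : ℝ) ^ 2 ≤ (k (w 0)).re := by
    obtain ⟨z, hz, hz2⟩ := hex
    refine hz2.trans ((hw 0 (Nat.zero_le _)).2 z ?_)
    simpa using hz
  have hN2 : (1 : ℝ) ≤ (N : ℝ) ^ 2 := by nlinarith
  have hgN : (k (w N)).re ≤ 2 ^ N := by
    apply hre
    rw [mem_ball_zero_iff, (hw N le_rfl).1]
    linarith [hr N le_rfl]
  obtain ⟨j, hj, hj2⟩ := hG N (fun j => (k (w j)).re) hN (by linarith) hgN
  obtain ⟨hwn, hwm⟩ := hw j hj.le
  obtain ⟨hwn', hwm'⟩ := hw (j + 1) hj
  have hr1 : (7 / 10 : ℝ) + ((j + 1 : ℕ) : ℝ) * d = (7 / 10 + j * d) + d := by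
    push_cast
    ring
  have hrj1 := hr (j + 1) hj
  rw [hr1] at hrj1 hwm'
  have hgj : 6000000 * (N : ℝ) ^ 2 ≤ (k (w j)).re := by
    refine hg0.trans (hwm (w 0) ?_)
    rw [mem_closedBall_zero_iff, (hw 0 (Nat.zero_le _)).1]
    have := hjd j
    push_cast
    linarith
  have hgpos : 0 < (k (w j)).re := by linarith
  have hball : ball (w j) d ⊆ ball (0 : ℂ) ((7 / 10 + j * d) + d) := by
    intro z hz
    rw [mem_ball, dist_eq_norm] at hz
    rw [mem_ball_zero_iff]
    calc ‖z‖ = ‖(z - w j) + w j‖ := by ring_nf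
      _ ≤ ‖z - w j‖ + ‖w j‖ := norm_add_le _ _
      _ < (7 / 10 + j * d) + d := by linarith
  have hball1 : ball (w j) d ⊆ ball (0 : ℂ) 1 := hball.trans (ball_subset_ball (by linarith))
  have hjd' := hjd j
  have hD : (k (w j)).re / 2 ≤ ‖deriv k (w j)‖ := by
    have h1 := hH k (7 / 10 + j * d) (k (w j)).re (w j) (by linarith) hgpos
      (hk.mono (ball_subset_ball (by linarith)))
      ((hk (w j) (hball1 (mem_ball_self hd0))).differentiableAt
        (isOpen_ball.mem_nhds (hball1 (mem_ball_self hd0)))) hk0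
      (fun z hz => hwm z (ball_subset_closedBall hz)) hwn rfl
    refine le_trans ?_ h1
    apply div_le_div_of_nonneg_left hgpos.le (by linarith) (by linarith)
  have hdsq : d ^ 2 / 32768 = 1 / (819200 * (N : ℝ) ^ 2) := by
    rw [hd]
    field_simp
    norm_num
  have hπ2 : Real.pi < 3.15 := Real.pi_lt_d2
  have hs : 2 * Real.pi / (k (w j)).re ≤ d ^ 2 / 32768 := by
    rw [hdsq, div_le_div_iff₀ hgpos (by positivity)]
    nlinarith
  obtain ⟨τ, hτ, hτ2⟩ := BOK_core k (w j) (k (w j)).re d hd0 (by linarith) hgpos (hk.mono hball1)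
    (fun z hz => by
      refine (hwm' z (ball_subset_closedBall (hball hz))).trans hj2) rfl hD hs
  refine ⟨w j, τ, ?_, ?_, ?_, ?_⟩
  · rw [hwn]
    linarith
  · rw [hwn]
    linarith
  · rw [← hdsq]
    exact hτ
  · rw [← hdsq]
    exact hτ2

end GR
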